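import Mathlib

set_option autoImplicit false

namespace Pool.Agent.Results.MP_8cb698_co.MiddleGap

open Finset Equiv

/-- Strong up-set: `a k` is the entry at position `k`, so `a.symm i` is the position of the entry
`i`. If `i < j` and `i` stands to the right of `j` (an inversion), then the permutation obtained by
exchanging the entries `i` and `j` also lies in the family. -/
def StrongUp {n : ℕ} (A : Finset (Perm (Fin n))) : Prop :=
  ∀ a ∈ A, ∀ i j : Fin n, i < j → a.symm j < a.symm i → swap i j * a ∈ A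

/-- `m(a)`: the number of positions `k ≤ n/2` (positions are `1, …, n`, position `k + 1` has index
`k`) with entry `> n/2` (entries are `1, …, n`, the entry `v + 1` has index `v`). -/
def mid {n : ℕ} (a : Perm (Fin n)) : ℕ :=
  (univ.filter fun k : Fin n => 2 * ((k : ℕ) + 1) ≤ n ∧ n < 2 * ((a k : ℕ) + 1)).card

/-- The probability of the event `A` under `μ_q`. -/
noncomputable def mu {n : ℕ} (q : ℝ) (A : Finset (Perm (Fin n))) : ℝ :=
  (∑ a ∈ A, q ^ mid a) / ∑ a : Perm (Fin n), q ^ mid a

/-! ### The uniform measure -/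

/-- Functions that increase when an inversion is undone. -/
def UpF {n : ℕ} (f : Perm (Fin n) → ℝ) : Prop :=
  ∀ (a : Perm (Fin n)) (k l : Fin n), k < l → a l < a k → f a ≤ f (a * swap k l)

/-- Insert the value `v` in front. -/
def ins {n : ℕ} (v : Fin (n + 1)) (e : Perm (Fin n)) : Perm (Fin (n + 1)) :=
  (finSuccEquiv' 0).trans ((optionCongr e).trans (finSuccEquiv' v).symm)

lemma ins_zero {n : ℕ} (v : Fin (n + 1)) (e : Perm (Fin n)) : ins v e 0 = v := by
  simp [ins]

lemma ins_succ {n : ℕ} (v : Fin (n + 1)) (e : Perm (Fin n)) (i : Fin n) :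
    ins v e i.succ = v.succAbove (e i) := by
  have h : (finSuccEquiv' (0 : Fin (n + 1))) i.succ = some i := by
    rw [← Fin.zero_succAbove i, finSuccEquiv'_succAbove]
  simp [ins, h]

lemma ins_inj {n : ℕ} : Function.Injective (fun p : Fin (n + 1) × Perm (Fin n) => ins p.1 p.2) := by
  rintro ⟨v, e⟩ ⟨v', e'⟩ h
  simp only at h
  have h0 : v = v' := by rw [← ins_zero v e, h, ins_zero]
  subst h0
  have h1 : e = e' := by
    apply Equiv.ext
    intro i
    have := congrArg (fun (p : Perm (Fin (n + 1))) => p i.succ) h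
    simp only [ins_succ] at this
    exact Fin.succAbove_right_injective this
  rw [h1]

lemma ins_sum {n : ℕ} (f : Perm (Fin (n + 1)) → ℝ) :
    ∑ a, f a = ∑ v, ∑ e, f (ins v e) := by
  rw [← Fintype.sum_prod_type']
  symm
  refine Fintype.sum_bijective (fun p : Fin (n + 1) × Perm (Fin n) => ins p.1 p.2) ?_ _ _
    (fun _ => rfl)
  rw [Fintype.bijective_iff_injective_and_card]
  refine ⟨ins_inj, ?_⟩
  rw [Fintype.card_prod, Fintype.card_perm, Fintype.card_perm, Fintype.card_fin, Fintype.card_fin,
    Nat.factorial_succ]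

lemma ins_mul_swap {n : ℕ} (v : Fin (n + 1)) (e : Perm (Fin n)) (k l : Fin n) :
    ins v (e * swap k l) = ins v e * swap k.succ l.succ := by
  apply Equiv.ext
  intro i
  refine Fin.cases ?_ (fun i => ?_) i
  · rw [Perm.mul_apply, swap_apply_of_ne_of_ne (Fin.succ_ne_zero k).symm (Fin.succ_ne_zero l).symm,
      ins_zero, ins_zero]
  · rw [Perm.mul_apply, ins_succ, Perm.mul_apply]
    have : swap k.succ l.succ i.succ = (swap k l i).succ := by
      rw [swap_apply_def, swap_apply_def]
      simp only [Fin.succ_inj]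
      split_ifs <;> rfl
    rw [this, ins_succ]

lemma UpF_ins {n : ℕ} (f : Perm (Fin (n + 1)) → ℝ) (hf : UpF f) (v : Fin (n + 1)) :
    UpF (fun e => f (ins v e)) := by
  intro e k l hkl h
  simp only
  rw [ins_mul_swap]
  apply hf
  · exact Fin.succ_lt_succ_iff.mpr hkl
  · rw [ins_succ, ins_succ]
    exact Fin.strictMono_succAbove v h

lemma anti_ins {n : ℕ} (f : Perm (Fin (n + 1)) → ℝ) (hf : UpF f) (e : Perm (Fin n)) :
    Antitone (fun v => f (ins v e)) := by
  cases n with
  | zero =>
    intro a b _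
    have : a = b := Fin.ext (by have := a.2; have := b.2; omega)
    rw [this]
  | succ n =>
  rw [Fin.antitone_iff_succ_le]
  intro v
  -- position of the value `v`
  set l := e.symm v with hl
  have hel : e l = v := by rw [hl, apply_symm_apply]
  have h1 : ins v.castSucc e = ins v.succ e * swap 0 l.succ := by
    apply Equiv.ext
    intro i
    refine Fin.cases ?_ (fun i => ?_) i
    · rw [Perm.mul_apply, swap_apply_left, ins_zero, ins_succ, hel]
      exact (Fin.succAbove_succ_self v).symm
    · rw [Perm.mul_apply, ins_succ]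
      by_cases hi : i = l
      · subst hi
        rw [swap_apply_right, ins_zero, hel]
        exact Fin.succAbove_castSucc_self v
      · rw [swap_apply_of_ne_of_ne (Fin.succ_ne_zero i) (fun h => hi (Fin.succ_injective _ h)),
          ins_succ]
        have hne : e i ≠ v := fun h => hi (by rw [hl, ← h, symm_apply_apply])
        rcases lt_or_gt_of_ne hne with h | h
        · rw [Fin.succAbove_castSucc_of_lt _ _ h, Fin.succAbove_succ_of_le _ _ h.le]
        · rw [Fin.succAbove_castSucc_of_le _ _ h.le, Fin.succAbove_succ_of_lt _ _ h]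
  rw [h1]
  apply hf
  · exact Fin.succ_pos l
  · rw [ins_zero, ins_succ, hel, Fin.succAbove_succ_self]
    exact Fin.castSucc_lt_succ

theorem pa_uniform : ∀ (n : ℕ) (f g : Perm (Fin n) → ℝ), UpF f → UpF g →
    (∑ a, f a) * (∑ a, g a) ≤ (n.factorial : ℝ) * ∑ a, f a * g a := by
  intro n
  induction n with
  | zero =>
    intro f g _ _
    simp
  | succ n ih =>
    intro f g hf hg
    rw [ins_sum f, ins_sum g, ins_sum (fun a => f a * g a)]
    have h1 : Antitone (fun v => ∑ e, f (ins v e)) := by
      intro a b hab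
      exact Finset.sum_le_sum fun e _ => anti_ins f hf e hab
    have h2 : Antitone (fun v => ∑ e, g (ins v e)) := by
      intro a b hab
      exact Finset.sum_le_sum fun e _ => anti_ins g hg e hab
    have h3 := (h1.monovary h2).sum_mul_sum_le_card_mul_sum
    simp only [Fintype.card_fin] at h3
    refine h3.trans ?_
    rw [Nat.factorial_succ]
    have h4 : ∑ v, ((∑ e, f (ins v e)) * ∑ e, g (ins v e)) ≤
        ∑ v, (n.factorial : ℝ) * ∑ e, f (ins v e) * g (ins v e) :=
      Finset.sum_le_sum fun v _ => ih _ _ (UpF_ins f hf v) (UpF_ins g hg v)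
    rw [← Finset.mul_sum] at h4
    push_cast
    have h5 : (0 : ℝ) ≤ (n : ℝ) + 1 := by positivity
    have h6 := mul_le_mul_of_nonneg_left h4 h5
    linarith

/-- The uniform measure on a product of two symmetric groups. -/
lemma pa_prod (h r : ℕ) (f g : Perm (Fin h) → Perm (Fin r) → ℝ)
    (hf1 : ∀ τ, UpF (fun σ => f σ τ)) (hf2 : ∀ σ, UpF (f σ))
    (hg1 : ∀ τ, UpF (fun σ => g σ τ)) (hg2 : ∀ σ, UpF (g σ)) :
    (∑ σ, ∑ τ, f σ τ) * (∑ σ, ∑ τ, g σ τ) ≤
      (h.factorial : ℝ) * r.factorial * ∑ σ, ∑ τ, f σ τ * g σ τ := by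
  have h1 := pa_uniform h (fun σ => ∑ τ, f σ τ) (fun σ => ∑ τ, g σ τ)
    (fun a k l hkl hlt => Finset.sum_le_sum fun τ _ => hf1 τ a k l hkl hlt)
    (fun a k l hkl hlt => Finset.sum_le_sum fun τ _ => hg1 τ a k l hkl hlt)
  have h2 : ∑ σ, ((∑ τ, f σ τ) * ∑ τ, g σ τ) ≤ ∑ σ, (r.factorial : ℝ) * ∑ τ, f σ τ * g σ τ :=
    Finset.sum_le_sum fun σ _ => pa_uniform r _ _ (hf2 σ) (hg2 σ)
  rw [← Finset.mul_sum] at h2
  have h3 := mul_le_mul_of_nonneg_left h2 (Nat.cast_nonneg (α := ℝ) h.factorial)
  linarith

/-! ### The lattice of increasing sequences -/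

/-- Strictly increasing sequences of length `h` with values in `Fin n`. -/
def LL (h n : ℕ) : Sublattice (Fin h → Fin n) where
  carrier := {s | StrictMono s}
  supClosed' := by
    intro s hs t ht i j hij
    exact max_lt_max (hs hij) (ht hij)
  infClosed' := by
    intro s hs t ht i j hij
    exact min_lt_min (hs hij) (ht hij)

noncomputable instance instFintypeLL (h n : ℕ) : Fintype (LL h n) := by
  classical
  exact Fintype.ofInjective (fun s : LL h n => (s : Fin h → Fin n)) Subtype.val_injective

lemma LL_strict {h n : ℕ} (s : LL h n) : StrictMono (s : Fin h → Fin n) := s.2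

/-- FKG for antitone functions. -/
lemma fkg_anti {α : Type*} [DistribLattice α] [Fintype α] (μ f g : α → ℝ) (hμ₀ : 0 ≤ μ)
    (hf₀ : 0 ≤ f) (hg₀ : 0 ≤ g) (hf : Antitone f) (hg : Antitone g)
    (hμ : ∀ a b, μ a * μ b ≤ μ (a ⊓ b) * μ (a ⊔ b)) :
    (∑ a, μ a * f a) * ∑ a, μ a * g a ≤ (∑ a, μ a) * ∑ a, μ a * (f a * g a) := by
  have := fkg (α := αᵒᵈ) (μ := fun a => μ (OrderDual.ofDual a))
    (f := fun a => f (OrderDual.ofDual a)) (g := fun a => g (OrderDual.ofDual a))
    (fun a => hμ₀ _) (fun a => hf₀ _) (fun a => hg₀ _) (fun a b hab => hf hab)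
    (fun a b hab => hg hab) (fun a b => by
      have := hμ (OrderDual.ofDual a) (OrderDual.ofDual b)
      rw [mul_comm (μ (_ ⊓ _))] at this
      exact this)
  exact this

section cond

variable {h r : ℕ}

/-- The set of entries in the first `h` positions. -/
def fimg (a : Perm (Fin (h + r))) : Finset (Fin (h + r)) :=
  univ.image fun i : Fin h => a (Fin.castAdd r i)

lemma fimg_card (a : Perm (Fin (h + r))) : (fimg a).card = h := by
  have hinj : Function.Injective (fun i : Fin h => a (Fin.castAdd r i)) :=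
    fun i j hij => Fin.castAdd_injective h r (a.injective hij)
  unfold fimg
  rw [card_image_of_injective _ hinj, card_univ, Fintype.card_fin]

/-- The sorted sequence of entries in the first `h` positions. -/
def sOf (a : Perm (Fin (h + r))) : LL h (h + r) :=
  ⟨fun i => (fimg a).orderEmbOfFin (fimg_card a) i, fun _ _ hij =>
    ((fimg a).orderEmbOfFin (fimg_card a)).strictMono hij⟩

/-- The set of values of a sequence. -/
def img (s : LL h (h + r)) : Finset (Fin (h + r)) := univ.image (s : Fin h → Fin (h + r))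

lemma img_card (s : LL h (h + r)) : (img s).card = h := by
  unfold img
  rw [card_image_of_injective _ (LL_strict s).injective, card_univ, Fintype.card_fin]

lemma img_compl_card (s : LL h (h + r)) : (img s)ᶜ.card = r := by
  rw [card_compl, img_card, Fintype.card_fin]; omega

lemma img_inj (s t : LL h (h + r)) (hst : img s = img t) : s = t := by
  apply Subtype.ext
  have h1 := Finset.orderEmbOfFin_unique (img_card s) (f := (s : Fin h → Fin (h + r)))
    (fun x => by unfold img; exact mem_image_of_mem _ (mem_univ x)) (LL_strict s)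
  have h2 := Finset.orderEmbOfFin_unique (img_card s) (f := (t : Fin h → Fin (h + r)))
    (fun x => by rw [hst]; unfold img; exact mem_image_of_mem _ (mem_univ x)) (LL_strict t)
  rw [h1, h2]

lemma img_sOf (a : Perm (Fin (h + r))) : img (sOf a) = fimg a :=
  Finset.image_orderEmbOfFin_univ (fimg a) (fimg_card a)

lemma sOf_eq_iff (a : Perm (Fin (h + r))) (s : LL h (h + r)) : sOf a = s ↔ fimg a = img s := by
  constructor
  · rintro rfl; exact (img_sOf a).symm
  · intro hs
    exact img_inj _ _ ((img_sOf a).trans hs)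

/-- The sorted arrangement: the values of `s` first, then all others, both increasing. -/
def phi (s : LL h (h + r)) : Fin h ⊕ Fin r ≃ Fin (h + r) :=
  finSumEquivOfFinset (img_card s) (img_compl_card s)

lemma phi_inl (s : LL h (h + r)) (i : Fin h) :
    phi s (Sum.inl i) = (s : Fin h → Fin (h + r)) i := by
  unfold phi
  rw [finSumEquivOfFinset_inl]
  exact (congrFun (Finset.orderEmbOfFin_unique (img_card s) (f := (s : Fin h → Fin (h + r)))
    (fun x => by unfold img; exact mem_image_of_mem _ (mem_univ x)) (LL_strict s)) i).symm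

lemma phi_inr_lt (s : LL h (h + r)) (i j : Fin r) (hij : i < j) :
    phi s (Sum.inr i) < phi s (Sum.inr j) := by
  unfold phi
  rw [finSumEquivOfFinset_inr, finSumEquivOfFinset_inr]
  exact (Finset.orderEmbOfFin _ _).strictMono hij

/-- All arrangements with given set of first entries. -/
def aa (s : LL h (h + r)) (σ : Perm (Fin h)) (τ : Perm (Fin r)) : Perm (Fin (h + r)) :=
  finSumFinEquiv.symm.trans ((sumCongr σ τ).trans (phi s))

lemma aa_left (s : LL h (h + r)) (σ : Perm (Fin h)) (τ : Perm (Fin r)) (i : Fin h) :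
    aa s σ τ (Fin.castAdd r i) = (s : Fin h → Fin (h + r)) (σ i) := by
  unfold aa
  simp [phi_inl]

lemma aa_right (s : LL h (h + r)) (σ : Perm (Fin h)) (τ : Perm (Fin r)) (i : Fin r) :
    aa s σ τ (Fin.natAdd h i) = phi s (Sum.inr (τ i)) := by
  unfold aa
  simp

lemma aa_swap_left (s : LL h (h + r)) (σ : Perm (Fin h)) (τ : Perm (Fin r)) (k l : Fin h) :
    aa s (σ * swap k l) τ = aa s σ τ * swap (Fin.castAdd r k) (Fin.castAdd r l) := by
  apply Equiv.ext
  intro i
  refine Fin.addCases (fun i => ?_) (fun i => ?_) i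
  · rw [Perm.mul_apply, aa_left, Perm.mul_apply]
    have : swap (Fin.castAdd r k) (Fin.castAdd r l) (Fin.castAdd r i) =
        Fin.castAdd r (swap k l i) := by
      rw [swap_apply_def, swap_apply_def]
      simp only [Fin.castAdd_inj]
      split_ifs <;> rfl
    rw [this, aa_left]
  · rw [Perm.mul_apply, swap_apply_of_ne_of_ne, aa_right, aa_right]
    · intro hc
      have := congrArg Fin.val hc
      have h2 := k.2
      simp at this
      omega
    · intro hc
      have := congrArg Fin.val hc
      have h2 := l.2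
      simp at this
      omega

lemma aa_swap_right (s : LL h (h + r)) (σ : Perm (Fin h)) (τ : Perm (Fin r)) (k l : Fin r) :
    aa s σ (τ * swap k l) = aa s σ τ * swap (Fin.natAdd h k) (Fin.natAdd h l) := by
  apply Equiv.ext
  intro i
  refine Fin.addCases (fun i => ?_) (fun i => ?_) i
  · rw [Perm.mul_apply, swap_apply_of_ne_of_ne, aa_left, aa_left]
    · intro hc
      have := congrArg Fin.val hc
      have h2 := i.2
      simp at this
      omega
    · intro hc
      have := congrArg Fin.val hc
      have h2 := i.2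
      simp at this
      omega
  · rw [Perm.mul_apply, aa_right, Perm.mul_apply]
    have : swap (Fin.natAdd h k) (Fin.natAdd h l) (Fin.natAdd h i) =
        Fin.natAdd h (swap k l i) := by
      rw [swap_apply_def, swap_apply_def]
      simp only [Fin.natAdd_inj]
      split_ifs <;> rfl
    rw [this, aa_right]

lemma UpF_left (f : Perm (Fin (h + r)) → ℝ) (hf : UpF f) (s : LL h (h + r)) (τ : Perm (Fin r)) :
    UpF (fun σ => f (aa s σ τ)) := by
  intro σ k l hkl hlt
  simp only
  rw [aa_swap_left]
  apply hf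
  · exact hkl
  · rw [aa_left, aa_left]
    exact LL_strict s hlt

lemma UpF_right (f : Perm (Fin (h + r)) → ℝ) (hf : UpF f) (s : LL h (h + r)) (σ : Perm (Fin h)) :
    UpF (fun τ => f (aa s σ τ)) := by
  intro τ k l hkl hlt
  simp only
  rw [aa_swap_right]
  apply hf
  · exact (Fin.natAdd_lt_natAdd_iff h).mpr hkl
  · rw [aa_right, aa_right]
    exact phi_inr_lt s _ _ hlt

lemma fimg_aa (s : LL h (h + r)) (σ : Perm (Fin h)) (τ : Perm (Fin r)) :
    fimg (aa s σ τ) = img s := by
  unfold fimg img
  ext x
  simp only [aa_left, mem_image, mem_univ, true_and]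
  constructor
  · rintro ⟨i, hi⟩; exact ⟨σ i, hi⟩
  · rintro ⟨i, hi⟩; exact ⟨σ.symm i, by rw [apply_symm_apply]; exact hi⟩

lemma sum_fiber (s : LL h (h + r)) (f : Perm (Fin (h + r)) → ℝ) :
    ∑ a ∈ univ.filter (fun a => fimg a = img s), f a = ∑ σ, ∑ τ, f (aa s σ τ) := by
  rw [← Fintype.sum_prod_type' (f := fun σ τ => f (aa s σ τ))]
  symm
  refine Finset.sum_bij (fun p _ => aa s p.1 p.2) ?_ ?_ ?_ ?_
  · intro p _
    rw [mem_filter]
    exact ⟨mem_univ _, fimg_aa s _ _⟩
  · rintro ⟨σ, τ⟩ _ ⟨σ', τ'⟩ _ heq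
    simp only at heq
    have h1 : σ = σ' := by
      apply Equiv.ext
      intro i
      have := congrArg (fun p : Perm (Fin (h + r)) => p (Fin.castAdd r i)) heq
      simp only [aa_left] at this
      exact (LL_strict s).injective this
    have h2 : τ = τ' := by
      apply Equiv.ext
      intro i
      have := congrArg (fun p : Perm (Fin (h + r)) => p (Fin.natAdd h i)) heq
      simp only [aa_right] at this
      exact Sum.inr_injective ((phi s).injective this)
    rw [h1, h2]
  · intro a ha
    rw [mem_filter] at ha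
    have ha := ha.2
    set e : Perm (Fin h ⊕ Fin r) := finSumFinEquiv.trans (a.trans (phi s).symm) with he
    have hmaps : Set.MapsTo e (Set.range Sum.inl) (Set.range Sum.inl) := by
      rintro _ ⟨i, rfl⟩
      have h1 : a (Fin.castAdd r i) ∈ img s := by
        rw [← ha]; unfold fimg; exact mem_image_of_mem _ (mem_univ i)
      unfold img at h1
      rw [mem_image] at h1
      obtain ⟨j, _, hj⟩ := h1
      refine ⟨j, ?_⟩
      rw [he, trans_apply, trans_apply, finSumFinEquiv_apply_left, ← hj, ← phi_inl,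
        symm_apply_apply]
    obtain ⟨⟨σ, τ⟩, hστ⟩ := Perm.mem_sumCongrHom_range_of_perm_mapsTo_inl hmaps
    refine ⟨(σ, τ), mem_univ _, ?_⟩
    have h2 : (sumCongr σ τ : Perm (Fin h ⊕ Fin r)) = e := hστ
    simp only
    unfold aa
    rw [h2, he]
    apply Equiv.ext
    intro i
    simp
  · intro p _
    rfl

/-- Total mass over the arrangements with given set of first entries. -/
noncomputable def FS (f : Perm (Fin (h + r)) → ℝ) (s : LL h (h + r)) : ℝ :=
  ∑ a ∈ univ.filter (fun a => fimg a = img s), f a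

lemma sum_all (f : Perm (Fin (h + r)) → ℝ) : ∑ a, f a = ∑ s : LL h (h + r), FS f s := by
  classical
  rw [← Finset.sum_fiberwise univ (sOf (h := h) (r := r)) f]
  refine Finset.sum_congr rfl fun s _ => ?_
  unfold FS
  apply Finset.sum_congr _ (fun _ _ => rfl)
  ext a
  simp only [mem_filter, mem_univ, true_and, sOf_eq_iff]

/-- Lowering one value of the first block increases the total mass. -/
lemma FS_step (f : Perm (Fin (h + r)) → ℝ) (hf : UpF f) (s t : LL h (h + r)) (j : Fin h)
    (hlt : (s : Fin h → Fin (h + r)) j < (t : Fin h → Fin (h + r)) j)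
    (heq : ∀ i, i ≠ j → (s : Fin h → Fin (h + r)) i = (t : Fin h → Fin (h + r)) i) :
    FS f t ≤ FS f s := by
  set x := (s : Fin h → Fin (h + r)) j with hx
  set y := (t : Fin h → Fin (h + r)) j with hy
  have hsinj := (LL_strict s).injective
  have htinj := (LL_strict t).injective
  have hxt : x ∉ img t := by
    unfold img
    rw [mem_image]
    rintro ⟨i, _, hi⟩
    by_cases hij : i = j
    · subst hij; exact hlt.ne' (hy ▸ hi)
    · rw [← heq i hij] at hi
      exact hij (hsinj hi)
  have hyt : y ∈ img t := by unfold img; exact mem_image_of_mem _ (mem_univ j)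
  have himg : ∀ z, z ∈ img s ↔ swap x y z ∈ img t := by
    intro z
    unfold img
    rw [mem_image, mem_image]
    constructor
    · rintro ⟨i, _, rfl⟩
      refine ⟨i, mem_univ _, ?_⟩
      by_cases hij : i = j
      · subst hij; rw [← hx, swap_apply_left]
      · rw [swap_apply_of_ne_of_ne]
        · exact (heq i hij).symm
        · intro hc; exact hij (hsinj hc)
        · intro hc; rw [heq i hij] at hc; exact hij (htinj hc)
    · rintro ⟨i, _, hi⟩
      refine ⟨i, mem_univ _, ?_⟩
      have hz : z = swap x y ((t : Fin h → Fin (h + r)) i) := by rw [hi, swap_apply_self]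
      rw [hz]
      by_cases hij : i = j
      · subst hij; rw [← hy, swap_apply_right]
      · rw [swap_apply_of_ne_of_ne]
        · exact (heq i hij)
        · intro hc; rw [← heq i hij] at hc; exact hij (hsinj hc)
        · intro hc; exact hij (htinj hc)
  have hfimg : ∀ a : Perm (Fin (h + r)), fimg a = img t → fimg (swap x y * a) = img s := by
    intro a ha
    ext z
    rw [himg z, ← ha]
    unfold fimg
    simp only [mem_image, mem_univ, true_and, Perm.mul_apply]
    constructor
    · rintro ⟨i, hi⟩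
      exact ⟨i, by rw [← hi, swap_apply_self]⟩
    · rintro ⟨i, hi⟩
      exact ⟨i, by rw [hi, swap_apply_self]⟩
  have hfimg' : ∀ a : Perm (Fin (h + r)), fimg a = img s → fimg (swap x y * a) = img t := by
    intro a ha
    ext z
    have h1 := himg (swap x y z)
    rw [swap_apply_self] at h1
    rw [← h1, ← ha]
    unfold fimg
    simp only [mem_image, mem_univ, true_and, Perm.mul_apply]
    constructor
    · rintro ⟨i, hi⟩
      exact ⟨i, by rw [← hi, swap_apply_self]⟩
    · rintro ⟨i, hi⟩
      exact ⟨i, by rw [hi, swap_apply_self]⟩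
  have hsum : FS f s = ∑ a ∈ univ.filter (fun a => fimg a = img t), f (swap x y * a) := by
    unfold FS
    symm
    refine Finset.sum_bij' (fun a _ => swap x y * a) (fun a _ => swap x y * a) ?_ ?_ ?_ ?_ ?_
    · intro a ha
      rw [mem_filter] at ha ⊢
      exact ⟨mem_univ _, hfimg a ha.2⟩
    · intro a ha
      rw [mem_filter] at ha ⊢
      exact ⟨mem_univ _, hfimg' a ha.2⟩
    · intro a _; simp only [← mul_assoc, swap_mul_self, one_mul]
    · intro a _; simp only [← mul_assoc, swap_mul_self, one_mul]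
    · intro a _; rfl
  rw [hsum]
  unfold FS
  refine Finset.sum_le_sum fun a ha => ?_
  rw [mem_filter] at ha
  have ha := ha.2
  -- positions
  rw [← ha] at hxt hyt
  unfold fimg at hxt hyt
  rw [mem_image] at hxt hyt
  obtain ⟨k, _, hk⟩ := hyt
  have hxpos : ∃ l : Fin r, a (Fin.natAdd h l) = x := by
    have h1 : a (a.symm x) = x := apply_symm_apply a x
    revert h1
    refine Fin.addCases (fun i => ?_) (fun i => ?_) (a.symm x)
    · intro h1; exact absurd ⟨i, mem_univ _, h1⟩ hxt
    · intro h1; exact ⟨i, h1⟩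
  obtain ⟨l, hl⟩ := hxpos
  have hswap : swap x y * a = a * swap (Fin.castAdd r k) (Fin.natAdd h l) := by
    rw [← hk, ← hl, swap_comm, Equiv.mul_swap_eq_swap_mul]
  rw [hswap]
  apply hf
  · show (Fin.castAdd r k : ℕ) < (Fin.natAdd h l : ℕ)
    have := k.2
    simp only [Fin.val_castAdd, Fin.val_natAdd]
    omega
  · rw [hk, hl]; exact hlt

lemma FS_anti (f : Perm (Fin (h + r)) → ℝ) (hf : UpF f) : Antitone (FS (h := h) (r := r) f) := by
  intro s t hst
  have hst' : ∀ i, (s : Fin h → Fin (h + r)) i ≤ (t : Fin h → Fin (h + r)) i := fun i => hst i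
  -- interpolate
  have hz : ∀ j : ℕ, StrictMono (fun i : Fin h =>
      if (i : ℕ) < j then (s : Fin h → Fin (h + r)) i else (t : Fin h → Fin (h + r)) i) := by
    intro j a b hab
    have hab' : (a : ℕ) < b := hab
    simp only
    by_cases hb : (b : ℕ) < j
    · rw [if_pos (by omega), if_pos hb]; exact LL_strict s hab
    · rw [if_neg hb]
      by_cases ha : (a : ℕ) < j
      · rw [if_pos ha]; exact lt_of_le_of_lt (hst' a) (LL_strict t hab)
      · rw [if_neg ha]; exact LL_strict t hab
  let z : ℕ → LL h (h + r) := fun j => ⟨_, hz j⟩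
  have hchain : ∀ j : ℕ, j ≤ h → FS f t ≤ FS f (z j) := by
    intro j
    induction j with
    | zero =>
      intro _
      have : z 0 = t := by
        apply Subtype.ext
        funext i
        show (if (i : ℕ) < 0 then (s : Fin h → Fin (h + r)) i else
          (t : Fin h → Fin (h + r)) i) = (t : Fin h → Fin (h + r)) i
        rw [if_neg (by omega)]
      rw [this]
    | succ j ih =>
      intro hj
      refine (ih (by omega)).trans ?_
      have hjlt : j < h := by omega
      have e1 : (z j : Fin h → Fin (h + r)) ⟨j, hjlt⟩ = (t : Fin h → Fin (h + r)) ⟨j, hjlt⟩ := by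
        show (if j < j then _ else _) = _
        rw [if_neg (by omega)]
      have e2 : (z (j + 1) : Fin h → Fin (h + r)) ⟨j, hjlt⟩ =
          (s : Fin h → Fin (h + r)) ⟨j, hjlt⟩ := by
        show (if j < j + 1 then _ else _) = _
        rw [if_pos (by omega)]
      have e3 : ∀ i, i ≠ (⟨j, hjlt⟩ : Fin h) →
          (z (j + 1) : Fin h → Fin (h + r)) i = (z j : Fin h → Fin (h + r)) i := by
        intro i hi
        have hi' : (i : ℕ) ≠ j := fun hc => hi (Fin.ext hc)
        show (if (i : ℕ) < j + 1 then _ else _) = (if (i : ℕ) < j then _ else _)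
        by_cases h1 : (i : ℕ) < j
        · rw [if_pos (by omega), if_pos h1]
        · rw [if_neg (by omega), if_neg h1]
      rcases (hst' ⟨j, hjlt⟩).lt_or_eq with h1 | h1
      · exact FS_step f hf (z (j + 1)) (z j) ⟨j, hjlt⟩ (by rw [e1, e2]; exact h1) e3
      · have : z (j + 1) = z j := by
          apply Subtype.ext
          funext i
          by_cases hi : i = ⟨j, hjlt⟩
          · subst hi; rw [e1, e2, h1]
          · exact e3 i hi
        rw [this]
  have hlast : z h = s := by
    apply Subtype.ext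
    funext i
    show (if (i : ℕ) < h then _ else _) = _
    rw [if_pos i.2]
  rw [← hlast]
  exact hchain h le_rfl

/-- Positive association for measures proportional to a product of positive weights of the entries
in the first `h` positions. -/
theorem pa_weight (w : Fin (h + r) → ℝ) (hw : ∀ x, 0 < w x) (f g : Perm (Fin (h + r)) → ℝ)
    (hf0 : ∀ a, 0 ≤ f a) (hg0 : ∀ a, 0 ≤ g a) (hf : UpF f) (hg : UpF g) :
    (∑ a : Perm (Fin (h + r)), (∏ i : Fin h, w (a (Fin.castAdd r i))) * f a) *
      (∑ a : Perm (Fin (h + r)), (∏ i : Fin h, w (a (Fin.castAdd r i))) * g a) ≤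
    (∑ a : Perm (Fin (h + r)), (∏ i : Fin h, w (a (Fin.castAdd r i)))) *
      (∑ a : Perm (Fin (h + r)), (∏ i : Fin h, w (a (Fin.castAdd r i))) * (f a * g a)) := by
  set μ : LL h (h + r) → ℝ := fun s => ∏ i : Fin h, w ((s : Fin h → Fin (h + r)) i) with hμ
  have hμ0 : 0 ≤ μ := fun s => Finset.prod_nonneg fun i _ => (hw _).le
  have hW : ∀ (s : LL h (h + r)) (F : Perm (Fin (h + r)) → ℝ),
      FS (fun a => (∏ i : Fin h, w (a (Fin.castAdd r i))) * F a) s = μ s * FS F s := by
    intro s F
    unfold FS
    rw [sum_fiber, sum_fiber, Finset.mul_sum]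
    refine Finset.sum_congr rfl fun σ _ => ?_
    rw [Finset.mul_sum]
    refine Finset.sum_congr rfl fun τ _ => ?_
    simp only [aa_left]
    rw [hμ, Equiv.prod_comp σ (fun i => w ((s : Fin h → Fin (h + r)) i))]
  have hfkg := fkg_anti μ (FS f) (FS g) hμ0 (fun s => Finset.sum_nonneg fun a _ => hf0 a)
    (fun s => Finset.sum_nonneg fun a _ => hg0 a) (FS_anti f hf) (FS_anti g hg) (by
      intro s t
      rw [hμ]
      simp only
      rw [← Finset.prod_mul_distrib, ← Finset.prod_mul_distrib]
      apply le_of_eq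
      refine Finset.prod_congr rfl fun i _ => ?_
      have e1 : ((s ⊓ t : LL h (h + r)) : Fin h → Fin (h + r)) i =
          min ((s : Fin h → Fin (h + r)) i) ((t : Fin h → Fin (h + r)) i) := rfl
      have e2 : ((s ⊔ t : LL h (h + r)) : Fin h → Fin (h + r)) i =
          max ((s : Fin h → Fin (h + r)) i) ((t : Fin h → Fin (h + r)) i) := rfl
      rw [e1, e2]
      rcases le_total ((s : Fin h → Fin (h + r)) i) ((t : Fin h → Fin (h + r)) i) with hle | hle
      · rw [min_eq_left hle, max_eq_right hle]
      · rw [min_eq_right hle, max_eq_left hle, mul_comm])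
  have hone : ∑ a : Perm (Fin (h + r)), (∏ i : Fin h, w (a (Fin.castAdd r i))) =
      (h.factorial : ℝ) * r.factorial * ∑ s, μ s := by
    have h1 : ∑ a : Perm (Fin (h + r)), (∏ i : Fin h, w (a (Fin.castAdd r i))) =
        ∑ a : Perm (Fin (h + r)), (∏ i : Fin h, w (a (Fin.castAdd r i))) * (fun _ => (1 : ℝ)) a := by
      simp
    rw [h1, sum_all, Finset.mul_sum]
    refine Finset.sum_congr rfl fun s _ => ?_
    rw [hW]
    have h2 : FS (fun _ => (1 : ℝ)) s = (h.factorial : ℝ) * r.factorial := by
      unfold FS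
      rw [sum_fiber]
      simp [Fintype.card_perm]
    rw [h2]; ring
  rw [sum_all, sum_all, sum_all (fun a => _ * (f a * g a)), hone]
  simp only [hW]
  refine hfkg.trans ?_
  rw [mul_comm ((h.factorial : ℝ) * r.factorial) (∑ s, μ s), mul_assoc]
  refine mul_le_mul_of_nonneg_left ?_ (Finset.sum_nonneg fun s _ => hμ0 s)
  rw [Finset.mul_sum]
  refine Finset.sum_le_sum fun s _ => ?_
  have h3 : FS f s * FS g s ≤ (h.factorial : ℝ) * r.factorial * FS (fun a => f a * g a) s := by
    unfold FS
    rw [sum_fiber, sum_fiber, sum_fiber]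
    exact pa_prod h r (fun σ τ => f (aa s σ τ)) (fun σ τ => g (aa s σ τ))
      (fun τ => UpF_left f hf s τ) (fun σ => UpF_right f hf s σ)
      (fun τ => UpF_left g hg s τ) (fun σ => UpF_right g hg s σ)
  calc μ s * (FS f s * FS g s) ≤
      μ s * ((h.factorial : ℝ) * r.factorial * FS (fun a => f a * g a) s) :=
        mul_le_mul_of_nonneg_left h3 (hμ0 s)
    _ = _ := by ring

end cond

/-! ### The middle-gap measure -/

open Classical in
lemma UpF_indicator {n : ℕ} (A : Finset (Perm (Fin n))) (hA : StrongUp A) :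
    UpF (fun a => if a ∈ A then (1 : ℝ) else 0) := by
  intro a k l hkl hlt
  simp only
  by_cases ha : a ∈ A
  · rw [if_pos ha, if_pos]
    have := hA a ha (a l) (a k) hlt (by rw [symm_apply_apply, symm_apply_apply]; exact hkl)
    rw [Equiv.mul_swap_eq_swap_mul, swap_comm]
    exact this
  · rw [if_neg ha]
    split_ifs <;> norm_num

lemma pow_mid {h r : ℕ} (h1 : 2 * h ≤ h + r) (h2 : h + r < 2 * h + 2) (q : ℝ)
    (a : Perm (Fin (h + r))) :
    q ^ mid a = ∏ i : Fin h, (if h + r < 2 * ((a (Fin.castAdd r i) : ℕ) + 1) then q else 1) := by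
  rw [Finset.prod_ite, Finset.prod_const, Finset.prod_const_one, mul_one]
  congr 1
  unfold mid
  have : (univ.filter fun k : Fin (h + r) =>
      2 * ((k : ℕ) + 1) ≤ h + r ∧ h + r < 2 * ((a k : ℕ) + 1)) =
      (univ.filter fun i : Fin h => h + r < 2 * ((a (Fin.castAdd r i) : ℕ) + 1)).map
        (Fin.castAddEmb r) := by
    ext k
    simp only [mem_filter, mem_univ, true_and, mem_map, Fin.coe_castAddEmb]
    constructor
    · rintro ⟨h3, h4⟩
      refine ⟨⟨k, by omega⟩, ?_, rfl⟩
      exact h4
    · rintro ⟨i, h3, rfl⟩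
      refine ⟨?_, h3⟩
      have := i.2
      simp only [Fin.val_castAdd]
      omega
  rw [this, card_map]

/-- For every `n ≥ 1` and every `q > 0` the measure `μ_q` on `S_n` is positively associated for the
strong order. -/
theorem result : ∀ n : ℕ, 1 ≤ n → ∀ q : ℝ, 0 < q → ∀ A B : Finset (Perm (Fin n)),
    StrongUp A → StrongUp B → mu q A * mu q B ≤ mu q (A ∩ B) := by
  classical
  intro n _ q hq
  obtain ⟨h, r, hn, h1, h2⟩ : ∃ h r, n = h + r ∧ 2 * h ≤ h + r ∧ h + r < 2 * h + 2 :=
    ⟨n / 2, n - n / 2, by omega, by omega, by omega⟩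
  subst hn
  intro A B hA hB
  have hpa := pa_weight (h := h) (r := r)
    (fun v => if h + r < 2 * ((v : ℕ) + 1) then q else 1)
    (fun x => by split_ifs <;> linarith)
    (fun a => if a ∈ A then (1 : ℝ) else 0) (fun a => if a ∈ B then (1 : ℝ) else 0)
    (fun a => by split_ifs <;> norm_num) (fun a => by split_ifs <;> norm_num)
    (UpF_indicator A hA) (UpF_indicator B hB)
  simp only [← pow_mid h1 h2 q] at hpa
  have e1 : ∀ C : Finset (Perm (Fin (h + r))), ∑ a : Perm (Fin (h + r)),
      q ^ mid a * (if a ∈ C then (1 : ℝ) else 0) = ∑ a ∈ C, q ^ mid a := by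
    intro C
    simp only [mul_ite, mul_one, mul_zero]
    rw [Finset.sum_ite_mem, Finset.univ_inter]
  have e2 : ∀ a : Perm (Fin (h + r)), (if a ∈ A then (1 : ℝ) else 0) * (if a ∈ B then (1 : ℝ) else 0)
      = if a ∈ A ∩ B then (1 : ℝ) else 0 := by
    intro a
    by_cases ha : a ∈ A <;> by_cases hb : a ∈ B <;> simp [ha, hb]
  simp only [e2] at hpa
  rw [e1, e1, e1] at hpa
  unfold mu
  have hZ : 0 < ∑ a : Perm (Fin (h + r)), q ^ mid a :=
    Finset.sum_pos (fun a _ => pow_pos hq _) ⟨1, mem_univ _⟩
  rw [div_mul_div_comm, div_le_div_iff₀ (mul_pos hZ hZ) hZ]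
  calc _ ≤ ((∑ a : Perm (Fin (h + r)), q ^ mid a) * ∑ a ∈ A ∩ B, q ^ mid a) *
        ∑ a : Perm (Fin (h + r)), q ^ mid a := mul_le_mul_of_nonneg_right hpa hZ.le
    _ = _ := by ring

end Pool.Agent.Results.MP_8cb698_co.MiddleGap
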